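import Mathlib

/-!
Compressible actions have no invariant probability measure; invariant functions of ergodic actions.
-/

set_option autoImplicit false
set_option linter.unusedSectionVars false

namespace Pool.Agent.J6H4.DC

open MeasureTheory Filter

variable {G : Type} [Group G] [Countable G]

/-- The orbit equivalence relation of the action of `G` on `Y` is compressible: there is an injective
Borel map `c : Y → Y` which maps each orbit to a proper subset of itself. -/
def Compressible (G Y : Type) [Group G] [MulAction G Y] [MeasurableSpace Y] : Prop :=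
  ∃ c : Y → Y, Measurable c ∧ Function.Injective c ∧ (∀ y : Y, c y ∈ MulAction.orbit G y) ∧
    ∀ y : Y, ∃ z ∈ MulAction.orbit G y, ∀ w : Y, c w ≠ z

/-- compressible actions have no invariant probability measure -/
theorem no_invariant {Y : Type} [MeasurableSpace Y] [StandardBorelSpace Y] [MulAction G Y]
    (hm : ∀ g : G, Measurable (fun y : Y => g • y)) (hc : Compressible G Y) (ν : Measure Y)
    [IsProbabilityMeasure ν] (hν : ∀ g : G, ν.map (fun y => g • y) = ν) : False := by
  obtain ⟨c, hc1, hc2, hc3, hc4⟩ := hc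
  have hpre : ∀ (g : G) (t : Set Y), MeasurableSet t → ν ((fun y => g • y) ⁻¹' t) = ν t := by
    intro g t ht
    rw [← Measure.map_apply (hm g) ht, hν]
  obtain ⟨e, he⟩ := exists_surjective_nat G
  -- the pieces
  let P : ℕ → Set Y := fun n => {y | c y = e n • y}
  have hP : ∀ n, MeasurableSet (P n) := fun n => measurableSet_eq_fun hc1 (hm (e n))
  let Q : ℕ → Set Y := disjointed P
  have hQ : ∀ n, MeasurableSet (Q n) := fun n => MeasurableSet.disjointed hP n
  have hQd : Pairwise (Function.onFun Disjoint Q) := disjoint_disjointed P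
  have hQP : ∀ n, Q n ⊆ P n := disjointed_subset P
  have hQu : ⋃ n, Q n = Set.univ := by
    rw [iUnion_disjointed, Set.eq_univ_iff_forall]
    intro y
    obtain ⟨g, hg⟩ := hc3 y
    obtain ⟨n, rfl⟩ := he g
    exact Set.mem_iUnion.2 ⟨n, hg.symm⟩
  have him : ∀ n, c '' Q n = (fun y => (e n)⁻¹ • y) ⁻¹' Q n := by
    intro n
    ext z
    constructor
    · rintro ⟨y, hy, rfl⟩
      show (e n)⁻¹ • c y ∈ Q n
      rw [show c y = e n • y from hQP n hy, inv_smul_smul]
      exact hy
    · intro hz
      refine ⟨(e n)⁻¹ • z, hz, ?_⟩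
      rw [show c ((e n)⁻¹ • z) = e n • (e n)⁻¹ • z from hQP n hz, smul_inv_smul]
  have himm : ∀ n, MeasurableSet (c '' Q n) := fun n => by
    rw [him]
    exact hm _ (hQ n)
  have hrange : ν (Set.range c) = 1 := by
    have e1 : Set.range c = ⋃ n, c '' Q n := by
      rw [← Set.image_iUnion, hQu, Set.image_univ]
    rw [e1, measure_iUnion (fun i j hij => (Set.disjoint_image_iff hc2).2 (hQd hij)) himm]
    have e2 : ∀ n, ν (c '' Q n) = ν (Q n) := fun n => by rw [him, hpre _ _ (hQ n)]
    simp only [e2]
    rw [← measure_iUnion hQd hQ, hQu, measure_univ]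
  have hrm : MeasurableSet (Set.range c) := by
    rw [← Set.image_univ, ← hQu, Set.image_iUnion]
    exact MeasurableSet.iUnion himm
  have hD : ν (Set.range c)ᶜ = 0 := (prob_compl_eq_zero_iff hrm).2 hrange
  have hall : ν Set.univ ≤ 0 := by
    have e1 : (Set.univ : Set Y) ⊆ ⋃ g : G, (fun y => g • y) ⁻¹' (Set.range c)ᶜ := by
      intro y _
      obtain ⟨z, ⟨g, hg⟩, hz⟩ := hc4 y
      refine Set.mem_iUnion.2 ⟨g, ?_⟩
      rintro ⟨w, hw⟩
      exact hz w (hw.trans hg)
    refine (measure_mono e1).trans ((measure_iUnion_le _).trans ?_)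
    simp only [hpre _ _ hrm.compl, hD, tsum_zero, le_refl]
  rw [measure_univ] at hall
  exact absurd hall (by norm_num)

/-- invariant Borel functions of ergodic actions are constant almost everywhere -/
theorem const_of_invariant {X Y : Type} [MeasurableSpace X] [MulAction G X] {μ : Measure X}
    [ErgodicSMul G X μ] [MeasurableSpace Y] [StandardBorelSpace Y] [Nonempty Y] {f : X → Y}
    (hf : Measurable f) (h : ∀ g : G, ∀ᵐ x ∂μ, f (g • x) = f x) : ∃ y, ∀ᵐ x ∂μ, f x = y := by
  obtain ⟨y, hy⟩ := exists_eventuallyEq_const_of_forall_separating (β := Y) (l := ae μ) (f := f)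
    MeasurableSet (fun U hU => by
      have h1 : EventuallyConst (f ⁻¹' U) (ae μ) := by
        refine aeconst_of_forall_preimage_smul_ae_eq G (hf hU).nullMeasurableSet fun g => ?_
        filter_upwards [h g] with x hx
        show (f (g • x) ∈ U) = (f x ∈ U)
        rw [hx]
      rcases eventuallyConst_set.1 h1 with h2 | h2
      · exact Or.inl h2
      · exact Or.inr h2)
  exact ⟨y, hy⟩

end Pool.Agent.J6H4.DC
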