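import Pool.Agent.J6H4.DC.Main

/-!
Groups with a cocycle superrigid action which are not dynamically compressible.
-/

set_option autoImplicit false
set_option linter.unusedSectionVars false

namespace Pool.Agent.J6H4.DC

open MeasureTheory Filter

/-- Dynamical compressibility: every Borel action of `G` with infinite orbits is Borel reducible to a
compressible Borel action of `G` with infinite orbits. -/
def DynamicallyCompressible (G : Type) [Group G] : Prop :=
  ∀ (X : Type) [MeasurableSpace X] [StandardBorelSpace X] [MulAction G X],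
    (∀ g : G, Measurable (fun x : X => g • x)) → (∀ x : X, (MulAction.orbit G x).Infinite) →
    ∃ (Y : Type) (_ : MeasurableSpace Y) (_ : StandardBorelSpace Y) (_ : MulAction G Y),
      (∀ g : G, Measurable (fun y : Y => g • y)) ∧ (∀ y : Y, (MulAction.orbit G y).Infinite) ∧
      Compressible G Y ∧
      ∃ f : X → Y, Measurable f ∧
        ∀ x x' : X, (x' ∈ MulAction.orbit G x ↔ f x' ∈ MulAction.orbit G (f x))

variable {G : Type} [Group G] [Countable G]

/-- the set of points with infinite orbits is Borel -/
lemma measurableSet_inf {X : Type} [MeasurableSpace X] [StandardBorelSpace X] [MulAction G X]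
    (hX : ∀ g : G, Measurable (fun x : X => g • x)) :
    MeasurableSet {x : X | (MulAction.orbit G x).Infinite} := by
  classical
  have e : {x : X | (MulAction.orbit G x).Infinite}ᶜ =
      ⋃ s : Finset G, ⋂ g : G, ⋃ h ∈ s, {x : X | g • x = h • x} := by
    ext x
    simp only [Set.mem_compl_iff, Set.mem_ofPred_eq, Set.not_infinite, Set.mem_iUnion,
      Set.mem_iInter]
    constructor
    · intro hf
      have h1 : ∀ y ∈ hf.toFinset, ∃ g : G, g • x = y := fun y hy => (Set.Finite.mem_toFinset hf).1 hy
      choose! k hk using h1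
      refine ⟨hf.toFinset.image k, fun g => ?_⟩
      have hg : g • x ∈ hf.toFinset := (Set.Finite.mem_toFinset hf).2 (MulAction.mem_orbit _ _)
      exact ⟨k (g • x), Finset.mem_image_of_mem _ hg, (hk _ hg).symm⟩
    · rintro ⟨s, hs⟩
      refine Set.Finite.subset (s.finite_toSet.image (fun h => h • x)) ?_
      rintro _ ⟨g, rfl⟩
      obtain ⟨h, hh, he⟩ := hs g
      exact ⟨h, hh, he.symm⟩
  rw [← MeasurableSet.compl_iff, e]
  exact MeasurableSet.iUnion fun s => MeasurableSet.iInter fun g =>
    Finset.measurableSet_biUnion _ fun h _ => measurableSet_eq_fun (hX g) (hX h)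

/-- ergodic actions on atomless spaces have infinite orbits almost everywhere -/
lemma ae_inf {X : Type} [MeasurableSpace X] [StandardBorelSpace X] [MulAction G X]
    {μ : Measure X} [IsProbabilityMeasure μ] [NullSingletonClass μ] [ErgodicSMul G X μ]
    (hX : ∀ g : G, Measurable (fun x : X => g • x)) :
    ∀ᵐ x ∂μ, (MulAction.orbit G x).Infinite := by
  classical
  obtain ⟨u, hu⟩ := exists_measurableEmbedding_real X
  -- the least value of `arctan ∘ u` on the orbit
  obtain ⟨v, hv⟩ : ∃ v : X → ℝ, ∀ x, v x = Real.arctan (u x) := ⟨_, fun _ => rfl⟩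
  have hvm : Measurable v := by
    rw [show v = fun x => Real.arctan (u x) from funext hv]
    exact Real.measurable_arctan.comp hu.measurable
  have hvi : Function.Injective v := by
    intro x y hxy
    rw [hv, hv] at hxy
    exact hu.injective (Real.arctan_injective hxy)
  have hbdd : ∀ x, BddBelow (Set.range fun g : G => v (g • x)) := by
    intro x
    refine ⟨-(Real.pi / 2), ?_⟩
    rintro _ ⟨g, rfl⟩
    show -(Real.pi / 2) ≤ v (g • x)
    rw [hv]
    exact (Real.neg_pi_div_two_lt_arctan _).le
  obtain ⟨w, hw⟩ : ∃ w : X → ℝ, ∀ x, w x = ⨅ g : G, v (g • x) := ⟨_, fun _ => rfl⟩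
  have hwm : Measurable w := by
    rw [show w = fun x => ⨅ g : G, v (g • x) from funext hw]
    exact Measurable.iInf fun g => hvm.comp (hX g)
  have hwi : ∀ (g : G) (x : X), w (g • x) = w x := by
    intro g x
    rw [hw, hw]
    have e : (fun h : G => v (h • g • x)) = (fun h : G => v (h • x)) ∘ (Equiv.mulRight g) := by
      funext h
      show v (h • g • x) = v ((h * g) • x)
      rw [mul_smul]
    show iInf (fun h : G => v (h • g • x)) = iInf (fun h : G => v (h • x))
    rw [e]
    exact (Equiv.mulRight g).iInf_comp (g := fun h : G => v (h • x))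
  obtain ⟨c, hc⟩ := const_of_invariant (G := G) (μ := μ) hwm
    (fun g => Filter.Eventually.of_forall (hwi g))
  -- the set of points whose orbit meets `v = c`
  have h0 : μ (⋃ g : G, {x : X | v (g • x) = c}) = 0 := by
    rw [measure_iUnion_null_iff]
    intro g
    have hs : ({x : X | v (g • x) = c}).Subsingleton := by
      intro x hx y hy
      exact MulAction.injective g (hvi ((show v (g • x) = c from hx).trans
        (show v (g • y) = c from hy).symm))
    exact hs.measure_zero μ
  have h1 : ∀ᵐ x ∂μ, x ∉ ⋃ g : G, {x : X | v (g • x) = c} := measure_eq_zero_iff_ae_notMem.1 h0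
  filter_upwards [hc, h1] with x hx hx1
  intro hfin
  apply hx1
  have hr : (Set.range fun g : G => v (g • x)).Finite := by
    have : (Set.range fun g : G => v (g • x)) = v '' MulAction.orbit G x := by
      ext t
      constructor
      · rintro ⟨g, rfl⟩
        exact ⟨g • x, MulAction.mem_orbit _ _, rfl⟩
      · rintro ⟨_, ⟨g, rfl⟩, rfl⟩
        exact ⟨g, rfl⟩
    rw [this]
    exact hfin.image v
  have hmem : sInf (Set.range fun g : G => v (g • x)) ∈ Set.range fun g : G => v (g • x) :=
    (Set.range_nonempty _).csInf_mem hr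
  obtain ⟨g, hg⟩ := hmem
  refine Set.mem_iUnion.2 ⟨g, ?_⟩
  show v (g • x) = c
  rw [← hx, hw]
  exact hg

/-- **The theorem.** -/
theorem not_dynamicallyCompressible [Countable (Subgroup G)]
    (hsec : ∀ K : Subgroup G, K ≠ ⊤ → ∀ ψ : K →* G, ¬ Function.Surjective ψ)
    {X : Type} [MeasurableSpace X] [StandardBorelSpace X] [MulAction G X] {μ : Measure X}
    [IsProbabilityMeasure μ] [NullSingletonClass μ] [ErgodicSMul G X μ]
    (hX : ∀ g : G, Measurable (fun x : X => g • x))
    (herg : ∀ N : Subgroup G, N.Normal → N ≠ ⊥ → ErgodicSMul N X μ)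
    (hcs : CocycleSuperrigid G X μ) : ¬ DynamicallyCompressible G := by
  classical
  intro hdc
  obtain ⟨B, hBdef⟩ : ∃ B : Set X, B = {x : X | (MulAction.orbit G x).Infinite} := ⟨_, rfl⟩
  have hBmem : ∀ x, x ∈ B ↔ (MulAction.orbit G x).Infinite := fun x => by rw [hBdef]; rfl
  have hB : MeasurableSet B := by rw [hBdef]; exact measurableSet_inf hX
  have hBinv : ∀ (g : G) (x : X), g • x ∈ B ↔ x ∈ B := by
    intro g x
    rw [hBmem, hBmem, MulAction.orbit_smul]
  have hBae : ∀ᵐ x ∂μ, x ∈ B := by
    filter_upwards [ae_inf (μ := μ) hX] with x hx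
    exact (hBmem x).2 hx
  -- the action on `B`
  let act : MulAction G B :=
    { smul := fun g x => ⟨g • (x : X), (hBinv g x).2 x.2⟩
      one_smul := fun x => Subtype.ext (one_smul G (x : X))
      mul_smul := fun g h x => Subtype.ext (mul_smul g h (x : X)) }
  have hact : ∀ (g : G) (x : B), ((g • x : B) : X) = g • (x : X) := fun g x => rfl
  have hsb : StandardBorelSpace B := hB.standardBorel
  have horb : ∀ x x' : B, x' ∈ MulAction.orbit G x ↔ (x' : X) ∈ MulAction.orbit G (x : X) := by
    intro x x'
    constructor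
    · rintro ⟨g, rfl⟩
      exact ⟨g, rfl⟩
    · rintro ⟨g, hg⟩
      exact ⟨g, Subtype.ext hg⟩
  have hinf : ∀ x : B, (MulAction.orbit G x).Infinite := by
    intro x hfin
    refine (hBmem x).1 x.2 ((hfin.image (Subtype.val : B → X)).subset ?_)
    rintro _ ⟨g, rfl⟩
    exact ⟨g • x, MulAction.mem_orbit _ _, rfl⟩
  obtain ⟨Y, mY, sY, aY, hY, _, hcomp, f, hf, hred⟩ := hdc B
    (fun g => ((hX g).comp measurable_subtype_coe).subtype_mk) hinf
  have hne : Nonempty B := by
    obtain ⟨x, hx⟩ := hBae.exists
    exact ⟨⟨x, hx⟩⟩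
  obtain ⟨f', hf', hff'⟩ : ∃ f' : X → Y, Measurable f' ∧ ∀ x : B, f' x = f x := by
    have := (MeasurableEmbedding.subtype_coe hB).exists_measurable_extend hf
      (fun _ => ⟨f hne.some⟩)
    obtain ⟨f', h1, h2⟩ := this
    exact ⟨f', h1, fun x => congrFun h2 x⟩
  refine main hsec hX herg hcs hY hcomp hB hBinv hBae hf' fun x hx x' hx' => ?_
  have := hred ⟨x, hx⟩ ⟨x', hx'⟩
  rw [horb, ← hff', ← hff'] at this
  exact this

/-- ergodicity can be tested on invariant sets -/
lemma ergodic_of {N X : Type} [Group N] [Countable N] [MeasurableSpace X] [MulAction N X]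
    (hX : ∀ g : N, Measurable (fun x : X => g • x)) {μ : Measure X}
    (hinv : ∀ (g : N) (s : Set X), MeasurableSet s → μ ((fun x : X => g • x) ⁻¹' s) = μ s)
    (herg : ∀ s : Set X, MeasurableSet s → (∀ g : N, (fun x : X => g • x) ⁻¹' s = s) →
      μ s = 0 ∨ μ sᶜ = 0) : ErgodicSMul N X μ := by
  refine { measure_preimage_smul := fun c s hs => hinv c s hs,
           aeconst_of_forall_preimage_smul_ae_eq := ?_ }
  intro s hs h
  obtain ⟨t, ht⟩ : ∃ t : Set X, t = ⋂ g : N, (fun x : X => g • x) ⁻¹' s := ⟨_, rfl⟩
  have htm : MeasurableSet t := by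
    rw [ht]
    exact MeasurableSet.iInter fun g => hX g hs
  have hti : ∀ g : N, (fun x : X => g • x) ⁻¹' t = t := by
    intro g
    rw [ht]
    ext x
    simp only [Set.mem_preimage, Set.mem_iInter]
    constructor
    · intro h' k
      have := h' (k * g⁻¹)
      rwa [mul_smul, inv_smul_smul] at this
    · intro h' k
      have := h' (k * g)
      rwa [mul_smul] at this
  have hts : t =ᵐ[μ] s := by
    have h1 : ∀ᵐ x ∂μ, ∀ g : N, (g • x ∈ s ↔ x ∈ s) := by
      rw [ae_all_iff]
      intro g
      filter_upwards [h g] with x hx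
      exact iff_of_eq hx
    filter_upwards [h1] with x hx
    have h2 : x ∈ t ↔ x ∈ s := by
      rw [ht, Set.mem_iInter]
      constructor
      · intro h'
        exact (hx 1).1 (h' 1)
      · intro h' g
        exact (hx g).2 h'
    exact propext h2
  rw [eventuallyConst_set]
  rcases herg t htm hti with h1 | h1
  · right
    filter_upwards [hts, measure_eq_zero_iff_ae_notMem.1 h1] with x hx hx1 hx2
    exact hx1 ((iff_of_eq hx).2 hx2)
  · left
    filter_upwards [hts, measure_eq_zero_iff_ae_notMem.1 h1] with x hx hx1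
    exact (iff_of_eq hx).1 (not_not.1 hx1)

end Pool.Agent.J6H4.DC
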