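import Pool.Agent.J6H4.DC.Comp

/-!
Groups with few subgroups and cocycle superrigid actions are not dynamically compressible.
-/

set_option autoImplicit false
set_option linter.unusedSectionVars false

namespace Pool.Agent.J6H4.DC

open MeasureTheory Filter

/-- Popa's cocycle superrigidity (for countable target groups): every measurable cocycle of the
action with values in a countable group `Λ` is cohomologous to a homomorphism `G → Λ`. -/
def CocycleSuperrigid (G X : Type) [Group G] [MulAction G X] [MeasurableSpace X] (μ : Measure X) :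
    Prop :=
  ∀ (Λ : Type) [Group Λ] [Countable Λ] (α : G → X → Λ),
    (∀ g l, MeasurableSet {x | α g x = l}) → (∀ g h x, α (g * h) x = α g (h • x) * α h x) →
    ∃ (ρ : G →* Λ) (φ : X → Λ), (∀ l, MeasurableSet {x | φ x = l}) ∧
      ∀ g, ∀ᵐ x ∂μ, α g x = φ (g • x) * ρ g * (φ x)⁻¹

section normalizer

variable {G Y : Type} [Group G] [MulAction G Y] (H : Subgroup G)

/-- the quotient of the normalizer of `H` by `H` -/
abbrev Lam : Type := Subgroup.normalizer (H : Set G) ⧸ H.subgroupOf (Subgroup.normalizer (H : Set G))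

/-- representatives -/
noncomputable def rep (l : Lam H) : G := ((Quotient.out l : Subgroup.normalizer (H : Set G)) : G)

variable {H}

lemma rep_mem (l : Lam H) : rep H l ∈ Subgroup.normalizer (H : Set G) :=
  (Quotient.out l : Subgroup.normalizer (H : Set G)).2

lemma rep_smul {y : Y} (hy : MulAction.stabilizer G y = H)
    (n : Subgroup.normalizer (H : Set G)) :
    rep H (QuotientGroup.mk n) • y = (n : G) • y := by
  have h1 : (QuotientGroup.mk (Quotient.out (QuotientGroup.mk n : Lam H)) : Lam H) =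
      QuotientGroup.mk n := QuotientGroup.out_eq' _
  rw [QuotientGroup.eq] at h1
  have h2 : (rep H (QuotientGroup.mk n))⁻¹ * (n : G) ∈ MulAction.stabilizer G y := by
    rw [hy]
    exact h1
  have h3 := MulAction.mem_stabilizer_iff.1 h2
  calc rep H (QuotientGroup.mk n) • y
      = rep H (QuotientGroup.mk n) • (((rep H (QuotientGroup.mk n))⁻¹ * (n : G)) • y) := by rw [h3]
    _ = (n : G) • y := by rw [smul_smul, mul_inv_cancel_left]

lemma stab_smul {y : Y} (hy : MulAction.stabilizer G y = H) {n : G}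
    (hn : n ∈ Subgroup.normalizer (H : Set G)) : MulAction.stabilizer G (n • y) = H := by
  rw [MulAction.stabilizer_smul_eq_stabilizer_map_conj, hy]
  ext g
  rw [Subgroup.mem_map]
  constructor
  · rintro ⟨h, hh, rfl⟩
    show n * h * n⁻¹ ∈ H
    exact (Subgroup.mem_normalizer_iff.1 hn h).1 hh
  · intro hg
    refine ⟨n⁻¹ * g * n, (Subgroup.mem_normalizer_iff.1 hn _).2 (by simpa [mul_assoc] using hg), ?_⟩
    show n * (n⁻¹ * g * n) * n⁻¹ = g
    group

lemma rep_mul {y : Y} (hy : MulAction.stabilizer G y = H) (l m : Lam H) :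
    rep H l • rep H m • y = rep H (l * m) • y := by
  have h1 : (QuotientGroup.mk (⟨rep H l, rep_mem l⟩ * ⟨rep H m, rep_mem m⟩ :
      Subgroup.normalizer (H : Set G)) : Lam H) = l * m := by
    rw [QuotientGroup.mk_mul]
    congr 1
    · exact QuotientGroup.out_eq' _
    · exact QuotientGroup.out_eq' _
  rw [smul_smul, ← h1, rep_smul hy]
  rfl

lemma rep_one {y : Y} (hy : MulAction.stabilizer G y = H) : rep H (1 : Lam H) • y = y := by
  have := rep_smul hy (1 : Subgroup.normalizer (H : Set G))
  rw [QuotientGroup.mk_one] at this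
  rw [this]
  exact one_smul _ _

lemma rep_inj {y : Y} (hy : MulAction.stabilizer G y = H) {l m : Lam H}
    (h : rep H l • y = rep H m • y) : l = m := by
  have h1 : (rep H l)⁻¹ * rep H m ∈ MulAction.stabilizer G y := by
    rw [MulAction.mem_stabilizer_iff, mul_smul, ← h, inv_smul_smul]
  rw [hy] at h1
  have h2 : (QuotientGroup.mk (⟨rep H l, rep_mem l⟩ : Subgroup.normalizer (H : Set G)) : Lam H) =
      QuotientGroup.mk ⟨rep H m, rep_mem m⟩ := by
    rw [QuotientGroup.eq]
    exact h1
  have h3 : ∀ l : Lam H, (QuotientGroup.mk (⟨rep H l, rep_mem l⟩ :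
      Subgroup.normalizer (H : Set G)) : Lam H) = l := fun l => QuotientGroup.out_eq' l
  rw [h3, h3] at h2
  exact h2

lemma orbit_rep {y y' : Y} (hy : MulAction.stabilizer G y = H)
    (hy' : MulAction.stabilizer G y' = H) (h : y' ∈ MulAction.orbit G y) :
    ∃ n : Subgroup.normalizer (H : Set G), y' = (n : G) • y ∧ y' = rep H (QuotientGroup.mk n) • y := by
  obtain ⟨g, hg⟩ := h
  have hg' : g • y = y' := hg
  have hn : g ∈ Subgroup.normalizer (H : Set G) := by
    have mem : ∀ z : Y, MulAction.stabilizer G z = H → ∀ h, h ∈ H ↔ h • z = z := fun z hz h => by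
      rw [← MulAction.mem_stabilizer_iff, hz]
    rw [Subgroup.mem_normalizer_iff]
    intro h
    rw [mem y hy, mem y' hy', ← hg']
    constructor
    · intro hh
      rw [smul_smul, inv_mul_cancel_right, mul_smul, hh]
    · intro hh
      rw [smul_smul, inv_mul_cancel_right, mul_smul] at hh
      exact (MulAction.injective g) hh
  exact ⟨⟨g, hn⟩, hg'.symm, by rw [rep_smul hy]; exact hg'.symm⟩

end normalizer

variable {G : Type} [Group G] [Countable G]

/-- **The main theorem.** A cocycle superrigid action on `(X, μ)` such that all nontrivial normal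
subgroups act ergodically has no reduction to a compressible action of `G`, if `G` has countably many
subgroups and no proper subgroup of `G` maps onto `G`. -/
theorem main [Countable (Subgroup G)]
    (hsec : ∀ K : Subgroup G, K ≠ ⊤ → ∀ ψ : K →* G, ¬ Function.Surjective ψ)
    {X : Type} [MeasurableSpace X] [MulAction G X] {μ : Measure X} [IsProbabilityMeasure μ]
    [NullSingletonClass μ] [ErgodicSMul G X μ] (hX : ∀ g : G, Measurable (fun x : X => g • x))
    (herg : ∀ N : Subgroup G, N.Normal → N ≠ ⊥ → ErgodicSMul N X μ)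
    (hcs : CocycleSuperrigid G X μ)
    {Y : Type} [MeasurableSpace Y] [StandardBorelSpace Y] [MulAction G Y]
    (hY : ∀ g : G, Measurable (fun y : Y => g • y))
    (hcomp : Compressible G Y)
    {B : Set X} (hB : MeasurableSet B) (hBinv : ∀ (g : G) (x : X), g • x ∈ B ↔ x ∈ B)
    (hBae : ∀ᵐ x ∂μ, x ∈ B) {f : X → Y} (hf : Measurable f)
    (hred : ∀ x ∈ B, ∀ x' ∈ B, x' ∈ MulAction.orbit G x ↔ f x' ∈ MulAction.orbit G (f x)) :
    False := by
  classical
  have hne : Nonempty X := by
    by_contra h
    rw [not_nonempty_iff] at h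
    have h1 : μ Set.univ = 1 := measure_univ
    rw [Set.eq_empty_of_isEmpty (Set.univ : Set X), measure_empty] at h1
    exact zero_ne_one h1
  have hneY : Nonempty Y := ⟨f hne.some⟩
  have hSm : ∀ H : Subgroup G, MeasurableSet {y : Y | MulAction.stabilizer G y = H} := by
    intro H
    have e : {y : Y | MulAction.stabilizer G y = H} = ⋂ g : G, {y : Y | g • y = y ↔ g ∈ H} := by
      ext y
      simp only [Set.mem_ofPred_eq, Set.mem_iInter]
      constructor
      · rintro rfl g
        exact MulAction.mem_stabilizer_iff.symm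
      · intro h
        ext g
        rw [MulAction.mem_stabilizer_iff]
        exact h g
    rw [e]
    refine MeasurableSet.iInter fun g => ?_
    by_cases hg : g ∈ H
    · simp only [hg, iff_true]
      exact measurableSet_eq_fun (hY g) measurable_id
    · simp only [hg, iff_false]
      exact (measurableSet_eq_fun (hY g) measurable_id).compl
  -- a stabilizer which occurs with positive measure
  obtain ⟨H, ha⟩ : ∃ H : Subgroup G, μ (f ⁻¹' {y | MulAction.stabilizer G y = H}) ≠ 0 := by
    by_contra h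
    push Not at h
    have h1 : (Set.univ : Set X) ⊆ ⋃ H : Subgroup G, f ⁻¹' {y | MulAction.stabilizer G y = H} := by
      intro x _
      exact Set.mem_iUnion.2 ⟨_, rfl⟩
    have h2 : μ Set.univ ≤ 0 := by
      refine (measure_mono h1).trans ((measure_iUnion_le _).trans ?_)
      simp only [h, tsum_zero, le_refl]
    rw [measure_univ] at h2
    exact absurd h2 (by norm_num)
  obtain ⟨S, hSdef⟩ : ∃ S : Set Y, S = {y | MulAction.stabilizer G y = H} := ⟨_, rfl⟩
  have hS : ∀ y, y ∈ S ↔ MulAction.stabilizer G y = H := fun y => by rw [hSdef]; rfl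
  have hSmeas : MeasurableSet S := by rw [hSdef]; exact hSm H
  rw [← hSdef] at ha
  -- the invariant set
  obtain ⟨A, hA⟩ : ∃ A : Set X, ∀ x, x ∈ A ↔ x ∈ B ∧ ∃ g : G, f (g • x) ∈ S :=
    ⟨{x | x ∈ B ∧ ∃ g : G, f (g • x) ∈ S}, fun _ => Iff.rfl⟩
  have hAm : MeasurableSet A := by
    have e : A = B ∩ ⋃ g : G, (fun x => f (g • x)) ⁻¹' S := by
      ext x
      rw [hA, Set.mem_inter_iff, Set.mem_iUnion]
      rfl
    rw [e]
    exact hB.inter (MeasurableSet.iUnion fun g => (hf.comp (hX g)) hSmeas)
  have hAB : ∀ x ∈ A, x ∈ B := fun x hx => ((hA x).1 hx).1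
  have hAinv : ∀ (g : G) (x : X), g • x ∈ A ↔ x ∈ A := by
    intro g x
    rw [hA, hA, hBinv]
    refine and_congr_right fun _ => ?_
    constructor
    · rintro ⟨h, hh⟩
      exact ⟨h * g, by rwa [mul_smul]⟩
    · rintro ⟨h, hh⟩
      exact ⟨h * g⁻¹, by rwa [mul_smul, inv_smul_smul]⟩
  have hAae : ∀ᵐ x ∂μ, x ∈ A := by
    have h1 : EventuallyConst A (ae μ) := by
      refine aeconst_of_forall_preimage_smul_ae_eq G hAm.nullMeasurableSet fun g => ?_
      refine Filter.Eventually.of_forall fun x => ?_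
      exact propext (hAinv g x)
    rcases eventuallyConst_set.1 h1 with h2 | h2
    · exact h2
    · exfalso
      apply ha
      refine measure_mono_null (t := A ∪ Bᶜ) (fun x hx => ?_) (measure_union_null ?_ (ae_iff.1 hBae))
      · by_cases hxB : x ∈ B
        · exact Or.inl ((hA x).2 ⟨hxB, 1, by rw [one_smul]; exact hx⟩)
        · exact Or.inr hxB
      · have h3 := ae_iff.1 h2
        simpa using h3
  -- the modified map
  obtain ⟨e, he⟩ := exists_surjective_nat G
  have hex : ∀ x, ∃ n, f (e n • x) ∈ S ∨ x ∉ A := by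
    intro x
    by_cases hx : x ∈ A
    · obtain ⟨_, g, hg⟩ := (hA x).1 hx
      obtain ⟨n, rfl⟩ := he g
      exact ⟨n, Or.inl hg⟩
    · exact ⟨0, Or.inr hx⟩
  have hFm : Measurable (fun x => Nat.find (hex x)) :=
    measurable_find hex fun n => (((hf.comp (hX (e n))) hSmeas).union hAm.compl)
  obtain ⟨f1, hf1⟩ : ∃ f1 : X → Y, ∀ x, f1 x = f (e (Nat.find (hex x)) • x) := ⟨_, fun _ => rfl⟩
  have hf1m : Measurable f1 := by
    have h1 : ∀ x, f1 x = (fun p : ℕ × X => f (e p.1 • p.2)) (Nat.find (hex x), x) := hf1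
    have h2 : Measurable (fun p : ℕ × X => f (e p.1 • p.2)) :=
      measurable_from_prod_countable_right fun n => hf.comp (hX (e n))
    rw [show f1 = _ from funext h1]
    exact h2.comp (hFm.prodMk measurable_id)
  have hf1S : ∀ x ∈ A, f1 x ∈ S := by
    intro x hx
    rw [hf1]
    rcases Nat.find_spec (hex x) with h | h
    · exact h
    · exact absurd hx h
  have hf1o : ∀ x ∈ B, f1 x ∈ MulAction.orbit G (f x) := by
    intro x hx
    rw [hf1]
    exact (hred x hx _ ((hBinv _ _).2 hx)).1 (MulAction.mem_orbit _ _)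
  have horb : ∀ (g : G) (x : X), x ∈ B → f1 (g • x) ∈ MulAction.orbit G (f1 x) := by
    intro g x hx
    have h1 := hf1o (g • x) ((hBinv _ _).2 hx)
    have h2 : f (g • x) ∈ MulAction.orbit G (f x) :=
      (hred x hx _ ((hBinv _ _).2 hx)).1 (MulAction.mem_orbit _ _)
    have h3 := hf1o x hx
    rw [← MulAction.orbit_eq_iff] at h1 h2 h3 ⊢
    rw [h1, h2, h3]
  -- the cocycle
  have hcoc : ∀ (g : G) (x : X), ∃ l : Lam H, (x ∈ A → f1 (g • x) = rep H l • f1 x) ∧
      (x ∉ A → l = 1) := by
    intro g x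
    by_cases hx : x ∈ A
    · obtain ⟨n, _, hn⟩ := orbit_rep ((hS _).1 (hf1S x hx))
        ((hS _).1 (hf1S (g • x) ((hAinv g x).2 hx))) (horb g x (hAB x hx))
      exact ⟨_, fun _ => hn, fun h => absurd hx h⟩
    · exact ⟨1, fun h => absurd h hx, fun _ => rfl⟩
  choose α hα1 hα2 using hcoc
  have hαm : ∀ g l, MeasurableSet {x | α g x = l} := by
    intro g l
    have e1 : {x | α g x = l} = (A ∩ {x | f1 (g • x) = rep H l • f1 x}) ∪
        (Aᶜ ∩ {_x | (1 : Lam H) = l}) := by
      ext x
      simp only [Set.mem_ofPred_eq, Set.mem_union, Set.mem_inter_iff, Set.mem_compl_iff]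
      by_cases hx : x ∈ A
      · simp only [hx, true_and, not_true_eq_false, false_and, or_false]
        constructor
        · rintro rfl
          exact hα1 g x hx
        · intro h
          exact rep_inj ((hS _).1 (hf1S x hx)) ((hα1 g x hx).symm.trans h)
      · simp only [hx, false_and, not_false_eq_true, true_and, false_or]
        rw [hα2 g x hx]
    rw [e1]
    refine (hAm.inter (measurableSet_eq_fun (hf1m.comp (hX g)) ((hY _).comp hf1m))).union
      (hAm.compl.inter (MeasurableSet.const _))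
  have hαc : ∀ g h x, α (g * h) x = α g (h • x) * α h x := by
    intro g h x
    by_cases hx : x ∈ A
    · have hs := (hS _).1 (hf1S x hx)
      refine rep_inj hs ?_
      rw [← hα1 (g * h) x hx, ← rep_mul hs, ← hα1 h x hx, ← hα1 g (h • x) ((hAinv h x).2 hx),
        mul_smul]
    · rw [hα2 _ x hx, hα2 _ x hx, hα2 _ (h • x) (fun h' => hx ((hAinv h x).1 h')), one_mul]
  have : Countable (Lam H) := by
    have h1 : Function.Surjective (QuotientGroup.mk : Subgroup.normalizer (H : Set G) → Lam H) :=
      QuotientGroup.mk_surjective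
    exact h1.countable
  obtain ⟨ρ, φ, hφ, hρ⟩ := hcs (Lam H) α hαm hαc
  -- the equivariant map
  obtain ⟨f2, hf2⟩ : ∃ f2 : X → Y, ∀ x, f2 x = rep H (φ x)⁻¹ • f1 x := ⟨_, fun _ => rfl⟩
  have hf2m : Measurable f2 := by
    intro t ht
    have e1 : f2 ⁻¹' t = ⋃ l : Lam H, {x | φ x = l} ∩ (fun x => rep H l⁻¹ • f1 x) ⁻¹' t := by
      ext x
      simp only [Set.mem_preimage, Set.mem_iUnion, Set.mem_inter_iff, Set.mem_ofPred_eq, hf2]
      constructor
      · intro h
        exact ⟨φ x, rfl, h⟩
      · rintro ⟨l, rfl, h⟩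
        exact h
    rw [e1]
    exact MeasurableSet.iUnion fun l => (hφ l).inter (((hY _).comp hf1m) ht)
  have hf2S : ∀ x ∈ A, MulAction.stabilizer G (f2 x) = H := by
    intro x hx
    rw [hf2]
    exact stab_smul ((hS _).1 (hf1S x hx)) (rep_mem _)
  have hf2o : ∀ x ∈ B, f x ∈ MulAction.orbit G (f2 x) := by
    intro x hx
    have h1 := hf1o x hx
    rw [hf2]
    rw [← MulAction.orbit_eq_iff] at h1 ⊢
    rw [MulAction.orbit_smul, h1]
  have hf2e : ∀ g : G, ∀ᵐ x ∂μ, f2 (g • x) = rep H (ρ g) • f2 x := by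
    intro g
    filter_upwards [hρ g, hAae] with x hx hxA
    have hs := (hS _).1 (hf1S x hxA)
    rw [hf2, hf2, hα1 g x hxA, rep_mul hs, rep_mul hs, hx]
    congr 2
    group
  -- the two cases
  by_cases htriv : ρ.ker ≠ ⊥
  · have hergN := herg ρ.ker inferInstance htriv
    have h1 : ∀ g : ρ.ker, ∀ᵐ x ∂μ, f2 (g • x) = f2 x := by
      intro g
      filter_upwards [hf2e g, hAae] with x hx hxA
      have h2 : ρ (g : G) = 1 := g.2
      show f2 ((g : G) • x) = f2 x
      rw [hx, h2, rep_one (hf2S x hxA)]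
    obtain ⟨y, hy⟩ := const_of_invariant (G := ρ.ker) hf2m h1
    obtain ⟨x0, hx0, hx0B⟩ := (hy.and hBae).exists
    have h2 : ∀ᵐ x ∂μ, x ∈ MulAction.orbit G x0 := by
      filter_upwards [hy, hBae] with x hx hxB
      rw [hred x0 hx0B x hxB]
      have h3 := hf2o x hxB
      have h4 := hf2o x0 hx0B
      rw [hx] at h3
      rw [hx0] at h4
      rw [← MulAction.orbit_eq_iff] at h3 h4 ⊢
      rw [h3, h4]
    have h3 : μ (MulAction.orbit G x0) = 0 := (Set.countable_range _).measure_zero μ
    have h4 : μ (MulAction.orbit G x0)ᶜ = 0 := ae_iff.1 h2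
    have h5 : μ Set.univ ≤ 0 := by
      rw [← Set.union_compl_self (MulAction.orbit G x0)]
      refine (measure_union_le _ _).trans ?_
      rw [h3, h4, add_zero]
    rw [measure_univ] at h5
    exact absurd h5 (by norm_num)
  · -- `ρ` is injective
    push Not at htriv
    have hinj : Function.Injective ρ := by
      rw [← MonoidHom.ker_eq_bot_iff]
      exact htriv
    -- `ρ` is surjective
    obtain ⟨K, hK⟩ : ∃ K : Subgroup G, K = ((ρ.range).comap (QuotientGroup.mk'
        (H.subgroupOf (Subgroup.normalizer (H : Set G))))).map (Subgroup.normalizer (H : Set G)).subtype :=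
      ⟨_, rfl⟩
    have hKmem : ∀ g, g ∈ K ↔ ∃ n : Subgroup.normalizer (H : Set G), (n : G) = g ∧
        ∃ g', ρ g' = (QuotientGroup.mk n : Lam H) := by
      intro g
      rw [hK, Subgroup.mem_map]
      constructor
      · rintro ⟨n, hn, rfl⟩
        obtain ⟨g', hg'⟩ := hn
        exact ⟨n, rfl, g', hg'⟩
      · rintro ⟨n, rfl, g', hg'⟩
        exact ⟨n, ⟨g', hg'⟩, rfl⟩
    have hKN : K ≤ Subgroup.normalizer (H : Set G) := by
      intro g hg
      obtain ⟨n, rfl, _⟩ := (hKmem g).1 hg
      exact n.2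
    have hKtop : K = ⊤ := by
      by_contra hne
      let q : K →* Lam H := (QuotientGroup.mk' (H.subgroupOf (Subgroup.normalizer (H : Set G)))).comp
        (Subgroup.inclusion hKN)
      have hq : ∀ k : K, q k ∈ ρ.range := by
        intro k
        obtain ⟨n, hn, g', hg'⟩ := (hKmem k).1 k.2
        refine ⟨g', hg'.trans ?_⟩
        show (QuotientGroup.mk n : Lam H) = QuotientGroup.mk (Subgroup.inclusion hKN k)
        congr 1
        exact Subtype.ext hn
      refine hsec K hne ((MonoidHom.ofInjective hinj).symm.toMonoidHom.comp (q.codRestrict ρ.range hq))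
        fun g => ?_
      obtain ⟨n, hn⟩ := QuotientGroup.mk_surjective (ρ g)
      have hnK : (n : G) ∈ K := (hKmem _).2 ⟨n, rfl, g, hn.symm⟩
      refine ⟨⟨n, hnK⟩, ?_⟩
      show (MonoidHom.ofInjective hinj).symm (q.codRestrict ρ.range hq ⟨n, hnK⟩) = g
      rw [MulEquiv.symm_apply_eq]
      exact Subtype.ext hn
    -- the invariant measure
    have hprob : IsProbabilityMeasure (μ.map f2) := Measure.isProbabilityMeasure_map hf2m.aemeasurable
    refine no_invariant hY hcomp (μ.map f2) fun g => ?_
    obtain ⟨n, hn, g', hg'⟩ := (hKmem g).1 (by rw [hKtop]; exact Subgroup.mem_top g)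
    rw [Measure.map_map (hY g) hf2m]
    have h1 : (fun y => g • y) ∘ f2 =ᵐ[μ] f2 ∘ (fun x => g' • x) := by
      filter_upwards [hf2e g', hAae] with x hx hxA
      show g • f2 x = f2 (g' • x)
      rw [hx, hg', rep_smul (hf2S x hxA), hn]
    rw [Measure.map_congr h1, ← Measure.map_map hf2m (hX g')]
    congr 1
    have hcs : MeasurableConstSMul G X := ⟨hX⟩
    exact (measurePreserving_smul g' μ).map_eq

end Pool.Agent.J6H4.DC
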